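import Pool.Agent.W96.CL.Stm
set_option autoImplicit false

/-! # Removing the zeros of `s` in the strip -/

open Polynomial Filter Topology

namespace W96CL
namespace HFac718

/-- `e^z - 1 = tanh (3 z / 4) G1 z` -/
noncomputable def G1 (z : ℂ) : ℂ :=
  (Complex.exp (z / 2) + 1) ^ 2 * (Complex.exp (z / 2) ^ 2 - Complex.exp (z / 2) + 1) /
    (Complex.exp (z / 2) ^ 2 + Complex.exp (z / 2) + 1)

lemma w_cone {z : ℂ} (hz : |z.im| < 2 * Real.pi / 3) :
    0 < (Complex.exp (z / 2)).re ∧
      (Complex.exp (z / 2)).im ^ 2 < 3 * (Complex.exp (z / 2)).re ^ 2 := by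
  have him : (z / 2).im = z.im / 2 := by simp
  have hre : (z / 2).re = z.re / 2 := by simp
  rw [Complex.exp_re, Complex.exp_im, him, hre]
  have hpi := Real.pi_pos
  rw [abs_lt] at hz
  have hc : 1 / 2 < Real.cos (z.im / 2) := by
    rw [← Real.cos_abs, ← Real.cos_pi_div_three]
    apply Real.cos_lt_cos_of_nonneg_of_le_pi_div_two (abs_nonneg _) (by linarith)
    rw [abs_lt]
    constructor <;> linarith
  have he : 0 < Real.exp (z.re / 2) := Real.exp_pos _
  have hs := Real.sin_sq_add_cos_sq (z.im / 2)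
  constructor
  · positivity
  · have : Real.sin (z.im / 2) ^ 2 < 3 * Real.cos (z.im / 2) ^ 2 := by nlinarith
    have he2 : 0 < Real.exp (z.re / 2) ^ 2 := by positivity
    nlinarith

lemma w_ne {z : ℂ} (hz : |z.im| < 2 * Real.pi / 3) :
    Complex.exp (z / 2) + 1 ≠ 0 ∧ Complex.exp (z / 2) ^ 2 - Complex.exp (z / 2) + 1 ≠ 0 ∧
      Complex.exp (z / 2) ^ 2 + Complex.exp (z / 2) + 1 ≠ 0 := by
  obtain ⟨h1, h2⟩ := w_cone hz
  set w := Complex.exp (z / 2)
  refine ⟨?_, ?_, ?_⟩
  · intro h
    have := congrArg Complex.re h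
    simp at this
    linarith
  · intro h
    have hr := congrArg Complex.re h
    have hi := congrArg Complex.im h
    simp [pow_two] at hr hi
    have hf : w.im * (2 * w.re - 1) = 0 := by linarith
    rcases mul_eq_zero.1 hf with h3 | h3
    · rw [h3] at hr
      nlinarith [sq_nonneg (w.re - 1 / 2)]
    · have h4 : w.re = 1 / 2 := by linarith
      rw [h4] at hr h2
      nlinarith
  · intro h
    have hr := congrArg Complex.re h
    have hi := congrArg Complex.im h
    simp [pow_two] at hr hi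
    have hf : w.im * (2 * w.re + 1) = 0 := by linarith
    rcases mul_eq_zero.1 hf with h3 | h3
    · rw [h3] at hr
      nlinarith [sq_nonneg (w.re + 1 / 2)]
    · linarith

lemma G1_ne {z : ℂ} (hz : |z.im| < 2 * Real.pi / 3) : G1 z ≠ 0 := by
  obtain ⟨h1, h2, h3⟩ := w_ne hz
  unfold G1
  exact div_ne_zero (mul_ne_zero (pow_ne_zero _ h1) h2) h3

lemma G1_diff {z : ℂ} (hz : |z.im| < 2 * Real.pi / 3) : DifferentiableAt ℂ G1 z := by
  obtain ⟨h1, h2, h3⟩ := w_ne hz
  unfold G1
  refine DifferentiableAt.fun_div ?_ ?_ h3 <;> fun_prop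

lemma G1_conj (z : ℂ) : G1 (starRingEnd ℂ z) = starRingEnd ℂ (G1 z) := by
  unfold G1
  have : Complex.exp (starRingEnd ℂ z / 2) = starRingEnd ℂ (Complex.exp (z / 2)) := by
    rw [← Complex.exp_conj, map_div₀, map_ofNat]
  rw [this]
  simp

lemma tanh_G1 {z : ℂ} (hz : |z.im| < 2 * Real.pi / 3) :
    Complex.exp z - 1 = Complex.tanh (3 * z / 4) * G1 z := by
  obtain ⟨h1, h2, h3⟩ := w_ne hz
  have e1 : Complex.exp z = Complex.exp (z / 2) ^ 2 := by
    rw [← Complex.exp_nat_mul]
    congr 1
    push_cast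
    ring
  have e0 : Complex.exp (3 * z / 4) ≠ 0 := Complex.exp_ne_zero _
  have e3 : Complex.exp (3 * z / 4) ^ 2 = Complex.exp (z / 2) ^ 3 := by
    rw [← Complex.exp_nat_mul, ← Complex.exp_nat_mul]
    congr 1
    push_cast
    ring
  have h4 : Complex.exp (z / 2) ^ 3 + 1 ≠ 0 := by
    have : Complex.exp (z / 2) ^ 3 + 1 = (Complex.exp (z / 2) + 1) *
        (Complex.exp (z / 2) ^ 2 - Complex.exp (z / 2) + 1) := by ring
    rw [this]
    exact mul_ne_zero h1 h2
  have e2 : Complex.tanh (3 * z / 4) =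
      (Complex.exp (z / 2) ^ 3 - 1) / (Complex.exp (z / 2) ^ 3 + 1) := by
    rw [Complex.tanh_eq_sinh_div_cosh, Complex.sinh, Complex.cosh, Complex.exp_neg]
    rw [← e3] at h4 ⊢
    have h5 : Complex.exp (3 * z / 4) + (Complex.exp (3 * z / 4))⁻¹ ≠ 0 := by
      intro h
      apply h4
      have : Complex.exp (3 * z / 4) ^ 2 + 1 = (Complex.exp (3 * z / 4) +
        (Complex.exp (3 * z / 4))⁻¹) * Complex.exp (3 * z / 4) := by
        field_simp
      rw [this, h, zero_mul]
    rw [div_div_div_cancel_right₀ (by norm_num), div_eq_div_iff h5 h4]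
    field_simp
  rw [e1, e2]
  unfold G1
  set w := Complex.exp (z / 2)
  rw [div_mul_div_comm, eq_div_iff (mul_ne_zero h4 h3)]
  ring

lemma psi_ne {n : ℕ} {θ : ℝ} (h0 : 0 < θ) (h1 : θ < Real.pi / 3) {z : ℂ}
    (hz : |z.im| < 2 * Real.pi / 3) : psi n θ (Complex.exp z) ≠ 0 := by
  unfold psi
  apply pow_ne_zero
  intro h
  have hpi := Real.pi_pos
  have hcθ : 1 / 2 < Real.cos θ := by
    rw [← Real.cos_pi_div_three]
    exact Real.cos_lt_cos_of_nonneg_of_le_pi_div_two h0.le (by linarith) h1
  have hsθ : 0 < Real.sin θ := Real.sin_pos_of_pos_of_lt_pi h0 (by linarith)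
  have hss := Real.sin_sq_add_cos_sq θ
  have hr := congrArg Complex.re h
  have hi := congrArg Complex.im h
  simp only [pow_two, Complex.add_re, Complex.add_im, Complex.mul_re, Complex.mul_im,
    Complex.one_re, Complex.one_im, Complex.ofReal_re, Complex.ofReal_im, Complex.re_ofNat,
    Complex.im_ofNat, Complex.zero_re, Complex.zero_im] at hr hi
  set a := (Complex.exp z).re with ha
  set b := (Complex.exp z).im with hb
  have hf : b * (2 * a + 2 * Real.cos θ) = 0 := by linarith
  rcases mul_eq_zero.1 hf with h3 | h3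
  · rw [h3] at hr
    nlinarith [sq_nonneg (a + Real.cos θ)]
  · have h4 : a = -Real.cos θ := by linarith
    have h5 : a ^ 2 + b ^ 2 = 1 := by
      rw [h4] at hr ⊢
      nlinarith
    have h6 : a ^ 2 + b ^ 2 = Real.exp z.re ^ 2 := by
      rw [ha, hb, Complex.exp_re, Complex.exp_im]
      have := Real.sin_sq_add_cos_sq z.im
      nlinarith [sq_nonneg (Real.exp z.re)]
    have h7 : Real.exp z.re = 1 := by
      have : 0 < Real.exp z.re := Real.exp_pos _
      nlinarith
    have h8 : a = Real.cos z.im := by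
      rw [ha, Complex.exp_re, h7, one_mul]
    have h9 : -(1 / 2) < Real.cos z.im := by
      rw [← Real.cos_abs]
      have : Real.cos (2 * Real.pi / 3) = -(1 / 2) := by
        have : 2 * Real.pi / 3 = Real.pi - Real.pi / 3 := by ring
        rw [this, Real.cos_pi_sub, Real.cos_pi_div_three]
      rw [← this]
      exact Real.cos_lt_cos_of_nonneg_of_le_pi (abs_nonneg _) (by linarith) hz
    linarith

lemma psi_diff (n : ℕ) (θ : ℝ) : Differentiable ℂ (psi n θ) := by
  unfold psi
  fun_prop

lemma psi_conj (n : ℕ) (θ : ℝ) (x : ℂ) :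
    psi n θ (starRingEnd ℂ x) = starRingEnd ℂ (psi n θ x) := by
  unfold psi
  rw [map_pow, map_add, map_add, map_mul, map_mul, map_pow, Complex.conj_ofReal, map_ofNat,
    map_one]

lemma aeval_real (p : ℝ[X]) (x : ℝ) : aeval (x : ℂ) p = ((p.eval x : ℝ) : ℂ) := by
  have := Polynomial.aeval_algebraMap_apply ℂ x p
  rw [Polynomial.coe_aeval_eq_eval] at this
  exact this

/-- no roots in a slightly larger sector -/
lemma sector {p : ℝ[X]} (hp : p ≠ 0)
    (h : ∀ z : ℂ, |z.im| ≤ Real.pi / 3 → aeval (Complex.exp z) p ≠ 0) :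
    ∃ a : ℝ, Real.pi / 3 < a ∧ a ≤ 2 * Real.pi / 3 ∧
      ∀ z : ℂ, |z.im| < a → aeval (Complex.exp z) p ≠ 0 := by
  have hpi := Real.pi_pos
  have hfin : ∀ S : Finset ℂ, (∀ x ∈ S, Real.pi / 3 < |x.arg|) →
      ∃ a : ℝ, Real.pi / 3 < a ∧ a ≤ 2 * Real.pi / 3 ∧ ∀ x ∈ S, a ≤ |x.arg| := by
    intro S
    induction S using Finset.induction_on with
    | empty =>
      intro _
      exact ⟨2 * Real.pi / 3, by linarith, le_rfl, by simp⟩
    | insert x S hx ih =>
      intro hS
      obtain ⟨a, h1, h2, h3⟩ := ih (fun y hy => hS y (Finset.mem_insert_of_mem hy))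
      refine ⟨min a |x.arg|, lt_min h1 (hS x (Finset.mem_insert_self _ _)),
        (min_le_left _ _).trans h2, ?_⟩
      intro y hy
      rcases Finset.mem_insert.1 hy with rfl | hy
      · exact min_le_right _ _
      · exact (min_le_left _ _).trans (h3 y hy)
  obtain ⟨a, h1, h2, h3⟩ := hfin (((p.map (algebraMap ℝ ℂ)).roots.toFinset).filter (· ≠ 0)) (by
    intro x hx
    rw [Finset.mem_filter, Multiset.mem_toFinset] at hx
    by_contra hc
    push Not at hc
    have h4 := (Polynomial.mem_roots'.1 hx.1).2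
    rw [Polynomial.IsRoot.def, Polynomial.eval_map_algebraMap] at h4
    apply h (Complex.log x)
    · rw [Complex.log_im]
      exact hc
    · rw [Complex.exp_log hx.2]
      exact h4)
  refine ⟨a, h1, h2, ?_⟩
  intro z hz h4
  have h5 : Complex.exp z ∈ ((p.map (algebraMap ℝ ℂ)).roots.toFinset).filter (· ≠ 0) := by
    rw [Finset.mem_filter, Multiset.mem_toFinset]
    refine ⟨Polynomial.mem_roots'.2 ⟨?_, ?_⟩, Complex.exp_ne_zero _⟩
    · rwa [Ne, Polynomial.map_eq_zero_iff (algebraMap ℝ ℂ).injective]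
    · rw [Polynomial.IsRoot.def, Polynomial.eval_map_algebraMap]
      exact h4
  have h6 := h3 _ h5
  have h7 : (Complex.exp z).arg = z.im := by
    rw [abs_lt] at hz
    rw [← Complex.log_im, Complex.log_exp (by linarith) (by linarith)]
  rw [h7] at h6
  linarith

lemma cosh_lower {w : ℂ} (hw : |w.im| ≤ Real.pi / 4) :
    Real.cosh w.re ^ 2 / 2 ≤ ‖Complex.cosh w‖ ^ 2 := by
  have hpi := Real.pi_pos
  have e : Complex.cosh w = (Real.cosh w.re * Real.cos w.im : ℝ) +
      (Real.sinh w.re * Real.sin w.im : ℝ) * Complex.I := by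
    conv_lhs => rw [← Complex.re_add_im w, Complex.cosh_add, Complex.cosh_mul_I,
      Complex.sinh_mul_I]
    push_cast
    ring
  have hn : ‖Complex.cosh w‖ ^ 2 = (Real.cosh w.re * Real.cos w.im) ^ 2 +
      (Real.sinh w.re * Real.sin w.im) ^ 2 := by
    rw [e, Complex.sq_norm, Complex.normSq_add_mul_I]
  have hc : 1 / 2 ≤ Real.cos w.im ^ 2 := by
    have h1 : Real.cos (Real.pi / 4) ≤ Real.cos w.im := by
      rw [← Real.cos_abs w.im]
      exact Real.cos_le_cos_of_nonneg_of_le_pi (abs_nonneg _) (by linarith) hw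
    rw [Real.cos_pi_div_four] at h1
    have h2 : (√2 / 2) ^ 2 = 1 / 2 := by
      rw [div_pow, Real.sq_sqrt (by norm_num)]
      norm_num
    have h3 : 0 < √2 / 2 := by positivity
    nlinarith
  rw [hn]
  have h4 : 0 < Real.cosh w.re ^ 2 := by positivity
  nlinarith [sq_nonneg (Real.sinh w.re * Real.sin w.im)]

lemma cosh_ne {w : ℂ} (hw : |w.im| ≤ Real.pi / 4) : Complex.cosh w ≠ 0 := by
  intro h
  have h1 := cosh_lower hw
  rw [h, norm_zero] at h1
  have h2 : 0 < Real.cosh w.re ^ 2 := by
    have := Real.cosh_pos w.re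
    positivity
  linarith

lemma cosh_lower' {w : ℂ} (hw : |w.im| ≤ Real.pi / 4) :
    Real.cosh w.re / 2 ≤ ‖Complex.cosh w‖ := by
  have h1 := cosh_lower hw
  have h2 := Real.cosh_pos w.re
  have h3 := norm_nonneg (Complex.cosh w)
  nlinarith

/-- the product of the two hyperbolic tangents tends to `1` -/
lemma tanh_prod {z : ℂ} {c : ℝ} (hz : |z.im| ≤ Real.pi / 3) :
    ‖1 - Complex.tanh (3 * (z - c) / 4) * Complex.tanh (3 * (z + c) / 4)‖ ≤
      16 * Real.cosh (3 * c / 2) * Real.exp (-|z.re|) := by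
  set a : ℂ := 3 * (z - c) / 4 with ha
  set b : ℂ := 3 * (z + c) / 4 with hb
  have hai : |a.im| ≤ Real.pi / 4 := by
    have : a.im = 3 / 4 * z.im := by
      simp [ha]
      ring
    rw [this, abs_mul, abs_of_pos (by norm_num : (0 : ℝ) < 3 / 4)]
    linarith
  have hbi : |b.im| ≤ Real.pi / 4 := by
    have : b.im = 3 / 4 * z.im := by
      simp [hb]
      ring
    rw [this, abs_mul, abs_of_pos (by norm_num : (0 : ℝ) < 3 / 4)]
    linarith
  have h1 := cosh_lower' hai
  have h2 := cosh_lower' hbi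
  have hca := cosh_ne hai
  have hcb := cosh_ne hbi
  have e1 : 1 - Complex.tanh a * Complex.tanh b =
      Complex.cosh (a - b) / (Complex.cosh a * Complex.cosh b) := by
    rw [Complex.tanh_eq_sinh_div_cosh, Complex.tanh_eq_sinh_div_cosh, Complex.cosh_sub]
    field_simp
  have e2 : Complex.cosh (a - b) = (Real.cosh (3 * c / 2) : ℂ) := by
    have : a - b = -((3 * c / 2 : ℝ) : ℂ) := by
      rw [ha, hb]
      push_cast
      ring
    rw [this, Complex.cosh_neg, Complex.ofReal_cosh]
  rw [e1, e2, norm_div, norm_mul, Complex.norm_real, Real.norm_eq_abs,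
    abs_of_pos (Real.cosh_pos _)]
  have har : a.re = 3 * (z.re - c) / 4 := by
    simp [ha]
  have hbr : b.re = 3 * (z.re + c) / 4 := by
    simp [hb]
  have e3 : Real.cosh (3 * z.re / 2) ≤ 2 * (Real.cosh a.re * Real.cosh b.re) := by
    have h3 : Real.cosh (3 * z.re / 2) = Real.cosh (a.re + b.re) := by
      rw [har, hbr]
      congr 1
      ring
    have h4 := Real.cosh_pos (a.re - b.re)
    rw [h3]
    rw [Real.cosh_sub] at h4
    rw [Real.cosh_add]
    linarith
  have e4 : Real.exp |z.re| / 2 ≤ Real.cosh (3 * z.re / 2) := by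
    rw [← Real.cosh_abs]
    have h5 : |3 * z.re / 2| = 3 / 2 * |z.re| := by
      rw [show 3 * z.re / 2 = 3 / 2 * z.re by ring, abs_mul,
        abs_of_pos (by norm_num : (0 : ℝ) < 3 / 2)]
    rw [h5, Real.cosh_eq]
    have h6 : Real.exp |z.re| ≤ Real.exp (3 / 2 * |z.re|) := by
      apply Real.exp_le_exp.2
      have := abs_nonneg z.re
      linarith
    have h7 := Real.exp_pos (-(3 / 2 * |z.re|))
    linarith
  have e5 : Real.exp |z.re| / 16 ≤ ‖Complex.cosh a‖ * ‖Complex.cosh b‖ := by
    have h8 : Real.cosh a.re / 2 * (Real.cosh b.re / 2) ≤ ‖Complex.cosh a‖ * ‖Complex.cosh b‖ := by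
      apply mul_le_mul h1 h2 _ (norm_nonneg _)
      have := Real.cosh_pos b.re
      positivity
    linarith
  have e6 : 0 < Real.exp |z.re| := Real.exp_pos _
  rw [div_le_iff₀ (lt_of_lt_of_le (by positivity) e5), Real.exp_neg]
  have e7 : 0 < Real.cosh (3 * c / 2) := Real.cosh_pos _
  calc Real.cosh (3 * c / 2) = 16 * Real.cosh (3 * c / 2) * (Real.exp |z.re|)⁻¹ *
        (Real.exp |z.re| / 16) := by field_simp
    _ ≤ _ := by
      apply mul_le_mul_of_nonneg_left e5
      positivity

/-- modulus one on the boundary -/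
lemma tanh_bd (a : ℝ) : ‖Complex.tanh (a + Real.pi / 4 * Complex.I)‖ = 1 := by
  have hpi := Real.pi_pos
  have h1 : Complex.sinh (a + Real.pi / 4 * Complex.I) = (Real.sinh a * (√2 / 2) : ℝ) +
      (Real.cosh a * (√2 / 2) : ℝ) * Complex.I := by
    have : (Real.pi / 4 * Complex.I : ℂ) = ((Real.pi / 4 : ℝ) : ℂ) * Complex.I := by push_cast; ring
    rw [this, Complex.sinh_add, Complex.cosh_mul_I, Complex.sinh_mul_I, ← Complex.ofReal_cos,
      ← Complex.ofReal_sin, Real.cos_pi_div_four, Real.sin_pi_div_four]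
    push_cast
    ring
  have h2 : Complex.cosh (a + Real.pi / 4 * Complex.I) = (Real.cosh a * (√2 / 2) : ℝ) +
      (Real.sinh a * (√2 / 2) : ℝ) * Complex.I := by
    have : (Real.pi / 4 * Complex.I : ℂ) = ((Real.pi / 4 : ℝ) : ℂ) * Complex.I := by push_cast; ring
    rw [this, Complex.cosh_add, Complex.cosh_mul_I, Complex.sinh_mul_I, ← Complex.ofReal_cos,
      ← Complex.ofReal_sin, Real.cos_pi_div_four, Real.sin_pi_div_four]
    push_cast
    ring
  have h3 : ‖Complex.sinh (a + Real.pi / 4 * Complex.I)‖ ^ 2 =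
      ‖Complex.cosh (a + Real.pi / 4 * Complex.I)‖ ^ 2 := by
    rw [h1, h2, Complex.sq_norm, Complex.sq_norm, Complex.normSq_add_mul_I,
      Complex.normSq_add_mul_I]
    ring
  have h4 : ‖Complex.sinh (a + Real.pi / 4 * Complex.I)‖ =
      ‖Complex.cosh (a + Real.pi / 4 * Complex.I)‖ := by
    rwa [sq_eq_sq₀ (norm_nonneg _) (norm_nonneg _)] at h3
  have h5 : Complex.cosh (a + Real.pi / 4 * Complex.I) ≠ 0 := by
    apply cosh_ne
    simp
    rw [abs_of_pos (by positivity)]
  rw [Complex.tanh_eq_sinh_div_cosh, norm_div, h4, div_self]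
  rwa [norm_ne_zero_iff]

end HFac718

open HFac718 in
theorem cl_hfac (hr : S_rs) (hl : S_lim) : S_hfac := by
  intro n θ t Q z0 hS
  have hpi := Real.pi_pos
  obtain ⟨t1, ht, ht1⟩ := hS.tfac
  have hz0 := hS.z0pos
  -- `t1 (0) = -2`
  have ht10 : t1.eval 0 = -2 := by
    have h1 := hS.rel.zero
    rw [Polynomial.coeff_zero_eq_eval_zero, ht] at h1
    simp only [eval_mul, eval_sub, eval_X, eval_C, zero_sub, neg_mul_neg] at h1
    rw [← Real.exp_add, add_neg_cancel, Real.exp_zero, one_mul] at h1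
    exact h1
  have ht1ne : t1 ≠ 0 := by
    rintro rfl
    simp at ht10
  obtain ⟨a, ha1, ha2, ha3⟩ := sector ht1ne ht1
  -- negativity of `t1`
  have hneg : ∀ x : ℝ, 0 < x → t1.eval x < 0 := by
    intro x hx
    by_contra hc
    push Not at hc
    have hcont : ContinuousOn (fun y => t1.eval y) (Set.Icc 0 x) := t1.continuous.continuousOn
    have := intermediate_value_Icc hx.le hcont
    have h0 : (0 : ℝ) ∈ Set.Icc (t1.eval 0) (t1.eval x) := ⟨by rw [ht10]; norm_num, hc⟩
    obtain ⟨y, hy, hy0⟩ := this h0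
    have hy1 : 0 < y := by
      rcases hy.1.lt_or_eq with h | h
      · exact h
      · exfalso
        rw [← h] at hy0
        simp only at hy0
        rw [ht10] at hy0
        norm_num at hy0
    have h2 := ht1 (Real.log y) (by simp; positivity)
    apply h2
    rw [← Complex.ofReal_exp, Real.exp_log hy1, aeval_real]
    simp only at hy0
    rw [hy0]
    simp
  set h : ℂ → ℂ := fun z => -(aeval (Complex.exp z) t1 * G1 (z - z0) * G1 (z + z0)) /
    psi n θ (Complex.exp z) ^ 2 with hh
  -- the factorisation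
  have hfac : ∀ z : ℂ, |z.im| < 2 * Real.pi / 3 → sC n θ t z =
      -(Complex.tanh (3 * (z - z0) / 4) * Complex.tanh (3 * (z + z0) / 4) * h z) := by
    intro z hz
    have hp := psi_ne (n := n) hS.th0 hS.th1 hz
    have h1 := tanh_G1 (z := z - z0) (by simpa using hz)
    have h2 := tanh_G1 (z := z + z0) (by simpa using hz)
    have h3 : (Complex.exp z - Complex.exp z0) * (Complex.exp z - Complex.exp (-z0)) =
        (Complex.exp (z - z0) - 1) * (Complex.exp (z + z0) - 1) := by
      have e1 : Complex.exp (z - z0) * Complex.exp z0 = Complex.exp z := by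
        rw [← Complex.exp_add]
        congr 1
        ring
      have e2 : Complex.exp (z + z0) * Complex.exp (-z0) = Complex.exp z := by
        rw [← Complex.exp_add]
        congr 1
        ring
      have e3 : Complex.exp z0 * Complex.exp (-z0) = 1 := by
        rw [← Complex.exp_add]
        simp
      calc _ = (Complex.exp (z - z0) * Complex.exp z0 - Complex.exp z0) *
            (Complex.exp (z + z0) * Complex.exp (-z0) - Complex.exp (-z0)) := by rw [e1, e2]
        _ = (Complex.exp (z - z0) - 1) * (Complex.exp (z + z0) - 1) *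
            (Complex.exp z0 * Complex.exp (-z0)) := by ring
        _ = _ := by rw [e3, mul_one]
    unfold sC
    rw [hh]
    simp only
    rw [ht]
    simp only [map_mul, map_sub, aeval_X, aeval_C, Complex.coe_algebraMap, Complex.ofReal_exp,
      Complex.ofReal_neg]
    rw [h3, h1, h2]
    field_simp
  have hdiff : ∀ z : ℂ, |z.im| < a → DifferentiableAt ℂ h z ∧ h z ≠ 0 := by
    intro z hz
    have hz2 : |z.im| < 2 * Real.pi / 3 := hz.trans_le ha2
    have hp := psi_ne (n := n) hS.th0 hS.th1 hz2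
    have h1 : |(z - z0).im| < 2 * Real.pi / 3 := by simpa using hz2
    have h2 : |(z + z0).im| < 2 * Real.pi / 3 := by simpa using hz2
    constructor
    · rw [hh]
      apply DifferentiableAt.div
      · apply DifferentiableAt.neg
        apply DifferentiableAt.mul
        · apply DifferentiableAt.mul
          · exact (Polynomial.differentiable_aeval t1 _).comp z Complex.differentiableAt_exp
          · exact DifferentiableAt.comp z (G1_diff h1) (by fun_prop)
        · exact DifferentiableAt.comp z (G1_diff h2) (by fun_prop)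
      · exact ((psi_diff n θ _).comp z Complex.differentiableAt_exp).pow 2
      · exact pow_ne_zero _ hp
    · rw [hh]
      simp only
      apply div_ne_zero _ (pow_ne_zero _ hp)
      apply neg_ne_zero.2
      exact mul_ne_zero (mul_ne_zero (ha3 z hz) (G1_ne h1)) (G1_ne h2)
  have hlim1 := (hl n θ t Q z0 hS).1
  obtain ⟨K, hK⟩ := hlim1
  refine ⟨h, ⟨by norm_num, ⟨a, ha1, hdiff⟩, ?_, ?_, ?_⟩, ?_, ?_⟩
  · -- conjugation
    intro z _
    rw [hh]
    simp only
    have e1 : G1 (starRingEnd ℂ z - z0) = starRingEnd ℂ (G1 (z - z0)) := by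
      rw [← G1_conj]
      simp
    have e2 : G1 (starRingEnd ℂ z + z0) = starRingEnd ℂ (G1 (z + z0)) := by
      rw [← G1_conj]
      simp
    rw [Complex.exp_conj, Polynomial.aeval_conj, psi_conj, e1, e2]
    simp
  · -- positivity
    intro u
    have hG : ∀ v : ℝ, ∃ g : ℝ, 0 < g ∧ G1 v = g := by
      intro v
      refine ⟨(Real.exp (v / 2) + 1) ^ 2 * (Real.exp (v / 2) ^ 2 - Real.exp (v / 2) + 1) /
        (Real.exp (v / 2) ^ 2 + Real.exp (v / 2) + 1), ?_, ?_⟩
      · have h1 := Real.exp_pos (v / 2)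
        have h2 : 0 < Real.exp (v / 2) ^ 2 - Real.exp (v / 2) + 1 := by
          nlinarith [sq_nonneg (Real.exp (v / 2) - 1 / 2)]
        positivity
      · unfold G1
        push_cast
        rfl
    obtain ⟨g1, hg1, e1⟩ := hG (u - z0)
    obtain ⟨g2, hg2, e2⟩ := hG (u + z0)
    have hps : ∃ q : ℝ, 0 < q ∧ psi n θ (Complex.exp u) = q := by
      refine ⟨(1 + 2 * Real.cos θ * Real.exp u + Real.exp u ^ 2) ^ n, ?_, ?_⟩
      · have : 0 < Real.cos θ := Real.cos_pos_of_mem_Ioo ⟨by linarith [hS.th0], by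
          linarith [hS.th1]⟩
        positivity
      · unfold psi
        push_cast
        rfl
    obtain ⟨q, hq, e3⟩ := hps
    have e4 : h u = ((-(t1.eval (Real.exp u) * g1 * g2) / q ^ 2 : ℝ) : ℂ) := by
      rw [hh]
      simp only
      rw [e3, ← Complex.ofReal_sub, ← Complex.ofReal_add, e1, e2, ← Complex.ofReal_exp,
        aeval_real]
      push_cast
      rfl
    rw [e4, Complex.ofReal_re]
    have h5 := hneg (Real.exp u) (Real.exp_pos u)
    have h6 : 0 < -(t1.eval (Real.exp u) * g1 * g2) := by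
      have : 0 < (-t1.eval (Real.exp u)) * g1 * g2 := by
        have : 0 < -t1.eval (Real.exp u) := by linarith
        positivity
      linarith
    positivity
  · -- limit
    set C := 16 * Real.cosh (3 * z0 / 2) with hC
    have hC0 : 0 < C := by
      have := Real.cosh_pos (3 * z0 / 2)
      positivity
    set M := Real.log (2 * C) with hM
    -- compact part
    obtain ⟨B, hB⟩ : ∃ B : ℝ, ∀ z : ℂ, |z.im| ≤ Real.pi / 3 → |z.re| ≤ M → ‖h z‖ ≤ B := by
      have hcomp : IsCompact ((Set.Icc (-M) M) ×ℂ (Set.Icc (-(Real.pi / 3)) (Real.pi / 3))) :=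
        isCompact_Icc.reProdIm isCompact_Icc
      have hco : ContinuousOn h ((Set.Icc (-M) M) ×ℂ (Set.Icc (-(Real.pi / 3)) (Real.pi / 3))) := by
        intro z hz
        rw [Complex.mem_reProdIm] at hz
        apply ContinuousAt.continuousWithinAt
        apply (hdiff z _).1.continuousAt
        exact lt_of_le_of_lt (abs_le.2 hz.2) ha1
      obtain ⟨B, hB⟩ := hcomp.exists_bound_of_continuousOn hco
      refine ⟨B, fun z h1 h2 => hB z ?_⟩
      rw [Complex.mem_reProdIm]
      exact ⟨abs_le.1 h2, abs_le.1 h1⟩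
    have hK0 : 0 ≤ K := by
      have := (hK 0 (by simp; positivity)).1
      simp at this
      exact (norm_nonneg _).trans this
    refine ⟨max (2 * (K + 2 * C)) ((|B| + 2) * Real.exp M), 1, one_pos, ?_⟩
    intro z hz
    rw [one_mul]
    have hexp : 0 < Real.exp (-|z.re|) := Real.exp_pos _
    rcases le_or_gt |z.re| M with hM1 | hM1
    · have h1 := hB z hz hM1
      have h2 : ‖h z - (2 : ℝ)‖ ≤ |B| + 2 := by
        calc ‖h z - (2 : ℝ)‖ ≤ ‖h z‖ + ‖((2 : ℝ) : ℂ)‖ := norm_sub_le _ _
          _ ≤ |B| + 2 := by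
            have := le_abs_self B
            have h3 : ‖((2 : ℝ) : ℂ)‖ = 2 := by
              rw [Complex.norm_real]
              norm_num
            rw [h3]
            linarith
      calc ‖h z - (2 : ℝ)‖ ≤ |B| + 2 := h2
        _ = (|B| + 2) * Real.exp M * Real.exp (-M) := by
          rw [mul_assoc, ← Real.exp_add]
          simp
        _ ≤ (|B| + 2) * Real.exp M * Real.exp (-|z.re|) := by
          apply mul_le_mul_of_nonneg_left _ (by positivity)
          exact Real.exp_le_exp.2 (by linarith)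
        _ ≤ _ := by
          apply mul_le_mul_of_nonneg_right (le_max_right _ _) hexp.le
    · set T := Complex.tanh (3 * (z - z0) / 4) * Complex.tanh (3 * (z + z0) / 4) with hT
      have h1 : ‖1 - T‖ ≤ C * Real.exp (-|z.re|) := tanh_prod hz
      have h2 : C * Real.exp (-|z.re|) ≤ 1 / 2 := by
        have : Real.exp (-|z.re|) ≤ Real.exp (-M) := Real.exp_le_exp.2 (by linarith)
        have h3 : Real.exp (-M) = (2 * C)⁻¹ := by
          rw [Real.exp_neg, hM, Real.exp_log (by positivity)]
        rw [h3] at this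
        calc C * Real.exp (-|z.re|) ≤ C * (2 * C)⁻¹ := by
              apply mul_le_mul_of_nonneg_left this hC0.le
          _ = 1 / 2 := by field_simp
      have h3 : 1 / 2 ≤ ‖T‖ := by
        have h4 : ‖(1 : ℂ)‖ ≤ ‖1 - T‖ + ‖T‖ := by
          have := norm_add_le (1 - T) T
          rwa [sub_add_cancel] at this
        rw [norm_one] at h4
        linarith
      have h4 := hfac z (lt_of_le_of_lt hz (by linarith))
      have h5 : T * (h z - (2 : ℝ)) = -(sC n θ t z + 2) + 2 * (1 - T) := by
        rw [h4]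
        push_cast
        ring
      have h6 : ‖T‖ * ‖h z - (2 : ℝ)‖ ≤ (K + 2 * C) * Real.exp (-|z.re|) := by
        rw [← norm_mul, h5]
        calc ‖-(sC n θ t z + 2) + 2 * (1 - T)‖ ≤ ‖-(sC n θ t z + 2)‖ + ‖2 * (1 - T)‖ :=
              norm_add_le _ _
          _ = ‖sC n θ t z + 2‖ + 2 * ‖1 - T‖ := by
              rw [norm_neg, norm_mul, Complex.norm_ofNat]
          _ ≤ K * Real.exp (-|z.re|) + 2 * (C * Real.exp (-|z.re|)) := by
              have := (hK z hz).1
              linarith
          _ = _ := by ring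
      have h7 := norm_nonneg (h z - (2 : ℝ))
      calc ‖h z - (2 : ℝ)‖ ≤ 2 * (‖T‖ * ‖h z - (2 : ℝ)‖) := by nlinarith
        _ ≤ 2 * ((K + 2 * C) * Real.exp (-|z.re|)) := by linarith
        _ = 2 * (K + 2 * C) * Real.exp (-|z.re|) := by ring
        _ ≤ _ := by
          apply mul_le_mul_of_nonneg_right (le_max_left _ _) hexp.le
  · intro z hz
    exact hfac z (lt_of_le_of_lt hz (by linarith))
  · intro v
    have h1 := (hr n θ t Q z0 hS).2.2.2.2.2.1 v
    have h2 := hfac (v + Real.pi / 3 * Complex.I) (by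
      have : ((v : ℂ) + Real.pi / 3 * Complex.I).im = Real.pi / 3 := by simp
      rw [this, abs_of_pos (by positivity)]
      linarith)
    have e1 : 3 * ((v : ℂ) + Real.pi / 3 * Complex.I - z0) / 4 =
        ((3 * (v - z0) / 4 : ℝ) : ℂ) + Real.pi / 4 * Complex.I := by
      push_cast
      ring
    have e2 : 3 * ((v : ℂ) + Real.pi / 3 * Complex.I + z0) / 4 =
        ((3 * (v + z0) / 4 : ℝ) : ℂ) + Real.pi / 4 * Complex.I := by
      push_cast
      ring
    rw [← h1, h2, e1, e2, norm_neg, norm_mul, norm_mul, tanh_bd, tanh_bd]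
    ring

end W96CL
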